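import Mathlib
import Pool.Agent.Lib.MP_058a58_ag.FD.Stm

open Polynomial Filter Topology
open scoped TensorProduct

namespace Pool.Agent.Results.MP_058a58_ag.FiniteDeterminacy

open TatePole

/-- Finite determinacy of the defect of Tate's formula.  Let `B` be a `CycleSpace` of `W` and
`v = dim W - dim B`.  For every number field `K` (inside `QBar`) let `P' K` be local factors of
`indRep ρ K` (the cohomology of `X ×_ℚ K` as a variety over `ℚ`).
For every `r` there is a finite set `T` of at most `v ^ 2 * (r - 1)` number fields `L` such that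
`L ⊗ L` has at most `r` prime ideals, with the following property.  Let `ET T` be the compositum of
the normal closures of the fields in `T`.  Then for every number field `K` for which `K ⊗ K` has at
most `r` prime ideals, in particular for every `K` of degree at most `r`, and for `M = K ⊓ ET T`: if
the orders `a` and `b` of the `L`-functions of `K` and of `M` at `m + 1` exist, then
`a + cycleRank ρ B K = b + cycleRank ρ B M`. -/
theorem result {ℓ : ℕ} [Fact ℓ.Prime] {W : Type*} [AddCommGroup W] [Module ℚ_[ℓ] W]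
    [FiniteDimensional ℚ_[ℓ] W] (ρ : Representation ℚ_[ℓ] GQ W) (ι : ℚ_[ℓ] →+* ℂ)
    (S : Finset ℕ) (P : ℕ → ℂ[X])
    (hgood : ∀ p : ℕ, p.Prime → p ∉ S → IsPureLocalFactor ρ ι p (P p))
    (B : Submodule ℚ_[ℓ] W) (hB : CycleSpace ρ B)
    (S' : IntermediateField ℚ QBar → Finset ℕ) (P' : IntermediateField ℚ QBar → ℕ → ℂ[X])
    (hP' : ∀ (K : IntermediateField ℚ QBar) [NumberField K], LocalFactors ρ ι K (S' K) (P' K))
    (m r : ℕ) :
    ∃ T : Finset (IntermediateField ℚ QBar),
      T.card ≤ (Module.finrank ℚ_[ℓ] W - Module.finrank ℚ_[ℓ] B) ^ 2 * (r - 1) ∧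
      (∀ L ∈ T, NumberField L ∧ pairCount L ≤ r) ∧
      ∀ (K M : IntermediateField ℚ QBar) [NumberField K] [NumberField M],
        (pairCount K ≤ r ∨ Module.finrank ℚ K ≤ r) → M = K ⊓ ET T →
          SameDefect ρ B m K M (P' K) (P' M) := by
  obtain ⟨F, hF⟩ := hB.fixed
  obtain ⟨T, h1, h2, h3⟩ := finite_determinacy hgood B hB.stable F hF hB.rational S' P'
    (fun K _ => (hP' K).1) (fun K _ => (hP' K).2) m r
  refine ⟨T, h1, h2, fun K M _ _ hK hM a b ha hb => h3 K M ?_ hM a b ha hb⟩
  rcases hK with h | h
  · exact h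
  · exact (card_spec_self_le K).trans h

end Pool.Agent.Results.MP_058a58_ag.FiniteDeterminacy
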