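import Mathlib
import Pool.Agent.Lib.MP_058a58_ag.MT.All4

open Polynomial Filter Topology UpperHalfPlane
open scoped MatrixGroups

namespace Pool.Agent.Results.MP_058a58_ag.ModularDefect

open TatePole

/-- Twists by modular forms, defect form.  Let `W` be an `ℓ-adic` representation of the absolute
Galois group of `ℚ`, pure of weight `w` outside of a finite set, and let `f i`, for `i` in a finite
set `J`, be normalised Hecke eigenforms of weights `k i ≥ 2` for `Γ₀(M i)`, no two of them with the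
same weight and the same eigenvalues at the primes that do not divide the levels.  Let `B` be a
stable subspace of `W` whose Frobenius traces are those of `r i` copies of (twists of) the `f i`, and
`T = W / B`.  Then for every `ε > 0` and all small `t > 0` the sum over `i` of the squares of
`log |L(W ⊗ f i, (w+k+1)/2 + t)| - r i * log (1 / t)` is at most
`(log |L(T ⊗ T^∨, 1 + t)| + ε * log (1 / t)) * log (1 / t)`, and
`log |L(T ⊗ T^∨, 1 + t)| ≤ ((dim W - dim B)² + ε) * log (1 / t)`. -/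
theorem result {ℓ : ℕ} [Fact ℓ.Prime] [Algebra ℚ_[ℓ] ℂ] {W : Type} [AddCommGroup W]
    [Module ℚ_[ℓ] W] [FiniteDimensional ℚ_[ℓ] W] (ρ : Representation ℚ_[ℓ] GQ W) (w : ℤ)
    (S : Finset ℕ) (P : ℕ → ℂ[X])
    (hP : ∀ p : ℕ, p.Prime → p ∉ S → IsWeightFactor ρ (algebraMap ℚ_[ℓ] ℂ) w p (P p))
    {J : Type} [Fintype J] (M k : J → ℕ) (hM : ∀ i, 1 ≤ M i) (hk : ∀ i, 2 ≤ k i)
    (f : ∀ i, CuspForm (CongruenceSubgroup.Gamma0 (M i) : Subgroup (GL (Fin 2) ℝ)) (k i))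
    (a : J → ℕ → ℝ) (hf : ∀ i, IsHeckeForm (M i) (k i) (f i) (a i))
    (hne : ∀ i j, i ≠ j → k i ≠ k j ∨ ∃ p : ℕ, p.Prime ∧ ¬ p ∣ M i * M j ∧ a i p ≠ a j p)
    (Q : J → ℕ → ℂ[X]) (hQ : ∀ i, ModFactors w S P (M i) (k i) (a i) (Q i))
    (B : Submodule ℚ_[ℓ] W) (hB : ∀ g : GQ, ∀ v ∈ B, ρ g v ∈ B) (r : J → ℝ)
    (hr : HasModTraces ρ (algebraMap ℚ_[ℓ] ℂ) w B hB k a r)
    (S' : Finset ℕ) (N : ℕ → ℂ[X])
    (hN : AdFactors (quoRep ρ B hB) (algebraMap ℚ_[ℓ] ℂ) S' N) (ε : ℝ) (hε : 0 < ε) :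
    ∃ δ : ℝ, 0 < δ ∧ ∀ t : ℝ, 0 < t → t < δ →
      ∑ i, (logMod w (k i) (Q i) t - r i * Real.log (1 / t)) ^ 2 ≤
        (Real.log ‖LFun N 0 ((1 + t : ℝ) : ℂ)‖ + ε * Real.log (1 / t)) * Real.log (1 / t) ∧
      Real.log ‖LFun N 0 ((1 + t : ℝ) : ℂ)‖ ≤
        (((Module.finrank ℚ_[ℓ] W : ℝ) - Module.finrank ℚ_[ℓ] B) ^ 2 + ε) * Real.log (1 / t) :=
  Pool.Agent.Lib.MP_058a58_ag.MT.fin4 ℓ W ρ w S P hP J M k hM hk f a hf hne Q hQ B hB r hr S' N hN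
    ε hε

end Pool.Agent.Results.MP_058a58_ag.ModularDefect
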